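import Pool.Agent.H75.NLSCert

/-!
Numerical data and kernel tests of some steps (generated).
-/

set_option maxRecDepth 100000

namespace NLSq.Dat

def a36 : Cert where
  heat := true
  h := 196
  K := 17
  p := 32
  b := 86
  c := 48
  M := 2063
  rows := [
    (35, 0x200000000400000001800000004fffffffedffffffd83fffffe447fffff4aeffffff12a000030a4c000323d88001b5011000542821ffd7159dbfc8fa78a7cd3b7b08f9ec02531a07809dfb68719cd2,
     0x2000000004000000007fffffff8fffffffadffffffe3c00000025800000b250000094760000465440000fe637ffefeae2fff1e345dff704be6bfdbc9427803dbde6b120c3b8028b1771e4620bc7a6f),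
    (31, 0x200000004000000180000004ffffffe5fffffd73ffffe5f7ffff789000019e2000429dc002e034800dff02ffbce04dfb6a763bdd9c6f7786bcdbd1aa8c04aa5d9065e1c059d6,
     0x20000000400000007ffffff8ffffffb5fffffea4000006980000cfd00008d9a0002e9d3fff96717fe95082ff4b53f1fd69fabc0d99b5c8d8abb6f5bcfb583357c6b0e491c2b9),
    (28, 0x8000000800000180000007fffff57ffffbe7ffff3d80000448000f958005315800d6757ff07527ee7dc67d2fa967e22c5b8ee8d90b6f1953d2a4be4d746b96,
     0x80000007ffffff7fffffd7fffff6800000280000d480004d48000d5e7fff70f7fefcc87fa9a0d7f90478819f00e8a144b9969b8c597dd2d981548de7377127),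
    (25, 0x20000010000007fffffbffffe1ffffd30000078000c44001dc2001bdeffebe57f6cf5bf0875601c4151a48e1a5b9315a1faa6afd21f4a9588,
     0x20000010000007fffffc00000200002f00008180009ebfffb1dffd226ffa8877fab9ec09907218d31f1533b27e701a2e9aca8faffb06abd7a),
    (22, 0x800002000007ffffdffffe8000060002480023e000a97feffdfee837f617602004898d8a58a7f95d639f8e2d642c9169c84,
     0x800002000008000020000280002e000167fff35ffe0f7feaea000578093260cfc883cdd5db13958f96900157394128e56f5),
    (19, 0x200004000080001000020001c000a80000ffe45ff2fc00238155b0a6ee2dbbc1e4667c84917a8dfa499b54,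
     0x200004000080001000060000bfff97ffb0ffed60063c056c8109d00689d81d30d725537abc405b94cbaaab),
    (15, 0x2000400080010002000bfff7feaff8e003c184877b0f3ddcaa36a1730121044d0b88,
     0x2000400080010001fffbffd7ffb0062041c0c97c16ddf160b2a2c7c016c6b7b47615),
    (13, 0x20010008004002000fff7ff400e03705b816bbfd9e6b4f60aba3a173185,
     0x20010008004002001000801c02a01cfd87893a05e211e5ad3e0631ef91e),
    (10, 0x8020080200802008020281604795b569de395abbbcf04,
     0x802008020080200806007f5ef7820094aafb52bca5685),
    (7, 0x20408102040810203e74ea1d2bb870e0,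
     0x204081020408101fbe83268d08ced9b0),
    (4, 0x888888888889abba99,
     0x888888888899975444),
    (2, 0xaaaaaaaaa,
     0xaaaaaaaaa),
    (2, 0xaaaaaaaaa,
     0xaaaaaaaaa),
    (2, 0xaaaaaaaaa,
     0xaaaaaaaaa),
    (2, 0xaaaaaaaaa,
     0xaaaaaaaaa)]

theorem ca36 : Cert.check a36 = true := by decide +kernel

end NLSq.Dat
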