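import Pool.Agent.H75.NLSCert

/-!
Numerical data and kernel tests of some steps (generated).
-/

set_option maxRecDepth 100000

namespace NLSq.Dat

def z0 : Cert where
  heat := false
  h := 1
  K := 1
  p := 6
  b := 8
  c := 0
  M := 1
  rows := [
    (11, 0x2c09e4,
     0x200400)]

end NLSq.Dat
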