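import Pool.Agent.H75.NLSJump
import Pool.Agent.H75.NLSD.A12
import Pool.Agent.H75.NLSD.B3
import Pool.Agent.H75.NLSD.Z

/-!
The two final states are far apart.
-/

namespace NLSq.Dat

theorem farAB : Cert.far a36 b23 = true := by decide +kernel

theorem lenA : 0 < a36.rows.length := by decide +kernel
theorem lenB : 0 < b23.rows.length := by decide +kernel
theorem lenZ : 0 < z0.rows.length := by decide +kernel

end NLSq.Dat
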