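import Pool.Agent.H75.NLSJump
import Pool.Agent.H75.NLSD.A0
import Pool.Agent.H75.NLSD.A1
import Pool.Agent.H75.NLSD.Z

/-!
Comparison of consecutive steps (generated).
-/

set_option maxRecDepth 100000

namespace NLSq.Dat

theorem la0 : Cert.link z0 a0 1 110 89 16155621 15614625 70 false = true := by decide +kernel

theorem la1 : Cert.link a0 a1 1 108 86 15614625 15160889 72 false = true := by decide +kernel

theorem la2 : Cert.link a1 a2 1 107 84 15160889 14719723 85 false = true := by decide +kernel

theorem la3 : Cert.link a2 a3 1 105 82 14719723 14268399 101 false = true := by decide +kernel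

theorem la4 : Cert.link a3 a4 1 101 79 14268399 13810109 117 false = true := by decide +kernel

theorem la5 : Cert.link a4 a5 1 99 77 13810109 13356159 131 false = true := by decide +kernel

end NLSq.Dat
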