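import Pool.Agent.H75.NLSJump
import Pool.Agent.H75.NLSD.A1
import Pool.Agent.H75.NLSD.A2
import Pool.Agent.H75.NLSD.A3

/-!
Comparison of consecutive steps (generated).
-/

set_option maxRecDepth 100000

namespace NLSq.Dat

theorem la6 : Cert.link a5 a6 1 97 74 13356159 12907762 143 false = true := by decide +kernel

theorem la7 : Cert.link a6 a7 1 95 72 12907762 12465848 158 false = true := by decide +kernel

theorem la8 : Cert.link a7 a8 1 92 69 12465848 12025270 177 false = true := by decide +kernel

theorem la9 : Cert.link a8 a9 1 90 67 12025270 11590106 202 false = true := by decide +kernel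

theorem la10 : Cert.link a9 a10 1 88 64 11590106 11150620 230 false = true := by decide +kernel

theorem la11 : Cert.link a10 a11 1 86 62 11150620 10706525 263 false = true := by decide +kernel

end NLSq.Dat
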