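import Pool.Agent.H75.NLSJump
import Pool.Agent.H75.NLSD.A3
import Pool.Agent.H75.NLSD.A4
import Pool.Agent.H75.NLSD.A5

/-!
Comparison of consecutive steps (generated).
-/

set_option maxRecDepth 100000

namespace NLSq.Dat

theorem la12 : Cert.link a11 a12 1 83 59 10706525 10239463 302 false = true := by decide +kernel

theorem la13 : Cert.link a12 a13 1 81 57 10239463 9780837 327 false = true := by decide +kernel

theorem la14 : Cert.link a13 a14 1 78 54 9780837 9312993 382 false = true := by decide +kernel

theorem la15 : Cert.link a14 a15 1 76 52 9312993 8807957 396 false = true := by decide +kernel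

theorem la16 : Cert.link a15 a16 1 73 49 8807957 8309101 380 false = true := by decide +kernel

theorem la17 : Cert.link a16 a17 1 70 46 8309101 7824366 393 false = true := by decide +kernel

end NLSq.Dat
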