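import Pool.Agent.H75.NLSJump
import Pool.Agent.H75.NLSD.A5
import Pool.Agent.H75.NLSD.A6
import Pool.Agent.H75.NLSD.A7

/-!
Comparison of consecutive steps (generated).
-/

set_option maxRecDepth 100000

namespace NLSq.Dat

theorem la18 : Cert.link a17 a18 1 67 44 7824366 7294458 422 false = true := by decide +kernel

theorem la19 : Cert.link a18 a19 1 65 41 7294458 6758747 427 false = true := by decide +kernel

theorem la20 : Cert.link a19 a20 1 61 38 6758747 6121961 419 false = true := by decide +kernel

theorem la21 : Cert.link a20 a21 1 57 34 6121961 5756173 204 false = true := by decide +kernel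

theorem la22 : Cert.link a21 a22 1 54 32 5756173 5473573 124 false = true := by decide +kernel

theorem la23 : Cert.link a22 a23 1 51 31 5473573 5261208 73 false = true := by decide +kernel

end NLSq.Dat
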