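import Pool.Agent.H75.NLSJump
import Pool.Agent.H75.NLSD.A7
import Pool.Agent.H75.NLSD.A8
import Pool.Agent.H75.NLSD.A9

/-!
Comparison of consecutive steps (generated).
-/

set_option maxRecDepth 100000

namespace NLSq.Dat

theorem la24 : Cert.link a23 a24 1 50 29 5261208 5054224 56 false = true := by decide +kernel

theorem la25 : Cert.link a24 a25 1 48 28 5054224 4848828 44 false = true := by decide +kernel

theorem la26 : Cert.link a25 a26 1 48 27 4848828 4581486 43 false = true := by decide +kernel

theorem la27 : Cert.link a26 a27 1 46 26 4581486 4324654 32 false = true := by decide +kernel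

theorem la28 : Cert.link a27 a28 1 45 24 4324654 3972302 32 false = true := by decide +kernel

theorem la29 : Cert.link a28 a29 1 43 22 3972302 3398406 37 false = true := by decide +kernel

end NLSq.Dat
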