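import Pool.Agent.H75.NLSJump
import Pool.Agent.H75.NLSD.A10
import Pool.Agent.H75.NLSD.A11
import Pool.Agent.H75.NLSD.A9

/-!
Comparison of consecutive steps (generated).
-/

set_option maxRecDepth 100000

namespace NLSq.Dat

theorem la30 : Cert.link a29 a30 1 40 19 3398406 2917499 31 false = true := by decide +kernel

theorem la31 : Cert.link a30 a31 1 37 17 2917499 2493193 35 false = true := by decide +kernel

theorem la32 : Cert.link a31 a32 1 34 14 2493193 2091315 49 false = true := by decide +kernel

theorem la33 : Cert.link a32 a33 1 33 12 2091315 1688144 75 false = true := by decide +kernel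

theorem la34 : Cert.link a33 a34 1 30 10 1688144 1310416 112 false = true := by decide +kernel

theorem la35 : Cert.link a34 a35 1 29 8 1310416 807932 188 true = true := by decide +kernel

end NLSq.Dat
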