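import Pool.Agent.H75.NLSJump
import Pool.Agent.H75.NLSD.A11
import Pool.Agent.H75.NLSD.A12

/-!
Comparison of consecutive steps (generated).
-/

set_option maxRecDepth 100000

namespace NLSq.Dat

theorem la36 : Cert.link a35 a36 1 25 5 807932 393216 196 true = true := by decide +kernel

end NLSq.Dat
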