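import Pool.Agent.H75.NLSJump
import Pool.Agent.H75.NLSD.B0
import Pool.Agent.H75.NLSD.B1
import Pool.Agent.H75.NLSD.Z

/-!
Comparison of consecutive steps (generated).
-/

set_option maxRecDepth 100000

namespace NLSq.Dat

theorem lb0 : Cert.link z0 b0 1 80 57 10348493 9946587 70 true = true := by decide +kernel

theorem lb1 : Cert.link b0 b1 1 77 55 9946587 9559391 100 true = true := by decide +kernel

theorem lb2 : Cert.link b1 b2 1 75 53 9559391 9180073 138 true = true := by decide +kernel

theorem lb3 : Cert.link b2 b3 1 73 51 9180073 9024889 76 true = true := by decide +kernel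

theorem lb4 : Cert.link b3 b4 1 72 50 9024889 8557898 215 false = true := by decide +kernel

theorem lb5 : Cert.link b4 b5 1 69 48 8557898 8101770 224 false = true := by decide +kernel

theorem lb6 : Cert.link b5 b6 1 67 45 8101770 7658508 247 false = true := by decide +kernel

theorem lb7 : Cert.link b6 b7 1 64 43 7658508 7223300 276 false = true := by decide +kernel

end NLSq.Dat
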