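import Pool.Agent.H75.NLSJump
import Pool.Agent.H75.NLSD.B1
import Pool.Agent.H75.NLSD.B2

/-!
Comparison of consecutive steps (generated).
-/

set_option maxRecDepth 100000

namespace NLSq.Dat

theorem lb8 : Cert.link b7 b8 1 62 40 7223300 6786292 311 false = true := by decide +kernel

theorem lb9 : Cert.link b8 b9 1 59 38 6786292 6339732 352 false = true := by decide +kernel

theorem lb10 : Cert.link b9 b10 1 57 35 6339732 5895636 400 false = true := by decide +kernel

theorem lb11 : Cert.link b10 b11 1 54 33 5895636 5445868 452 false = true := by decide +kernel

theorem lb12 : Cert.link b11 b12 1 53 30 5445868 4994468 506 false = true := by decide +kernel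

theorem lb13 : Cert.link b12 b13 1 50 28 4994468 4522912 530 false = true := by decide +kernel

theorem lb14 : Cert.link b13 b14 1 48 25 4522912 4044648 552 false = true := by decide +kernel

theorem lb15 : Cert.link b14 b15 1 45 23 4044648 3556662 583 false = true := by decide +kernel

end NLSq.Dat
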