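import Pool.Agent.H75.NLSJump
import Pool.Agent.H75.NLSD.B2
import Pool.Agent.H75.NLSD.B3

/-!
Comparison of consecutive steps (generated).
-/

set_option maxRecDepth 100000

namespace NLSq.Dat

theorem lb16 : Cert.link b15 b16 1 42 20 3556662 2943881 595 false = true := by decide +kernel

theorem lb17 : Cert.link b16 b17 1 37 17 2943881 2718985 184 false = true := by decide +kernel

theorem lb18 : Cert.link b17 b18 1 36 15 2718985 2496909 140 false = true := by decide +kernel

theorem lb19 : Cert.link b18 b19 1 34 14 2496909 2212848 133 false = true := by decide +kernel

theorem lb20 : Cert.link b19 b20 1 33 13 2212848 1848532 124 false = true := by decide +kernel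

theorem lb21 : Cert.link b20 b21 1 33 11 1848532 1225986 150 false = true := by decide +kernel

theorem lb22 : Cert.link b21 b22 1 29 7 1225986 667736 114 false = true := by decide +kernel

theorem lb23 : Cert.link b22 b23 1 25 4 667736 393216 56 false = true := by decide +kernel

end NLSq.Dat
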