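import Pool.Agent.H75.NLSJump
import Pool.Agent.H75.NLSD.B0
import Pool.Agent.H75.NLSD.Z

/-!
Comparison of consecutive steps (generated).
-/

set_option maxRecDepth 100000

namespace NLSq.Dat

theorem le0 : Cert.link z0 b0 4 80 31 5601616 4013000 70 true = true := by decide +kernel

theorem le1 : Cert.link b0 b1 4 77 23 4013000 2486104 100 true = true := by decide +kernel

theorem le2 : Cert.link b1 b2 4 75 14 2486104 994368 138 true = true := by decide +kernel

theorem le3 : Cert.link b2 b3 4 73 6 994368 393216 76 true = true := by decide +kernel

end NLSq.Dat
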